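import Mathlib

namespace Pool.Agent.Results.MP_6c2603_co.PowerOfTwo

open Finset

/-- Vertices of the `n`-cube: vectors of zeros and ones. -/
abbrev Vtx (n : ℕ) : Type := Fin n → ZMod 2

/-- The `n`-cube: two vertices are adjacent when they differ in exactly one coordinate. -/
def cube (n : ℕ) : SimpleGraph (Vtx n) where
  Adj x y := ∃ j, x j ≠ y j ∧ ∀ i, i ≠ j → x i = y i
  symm := ⟨by
    rintro x y ⟨j, h1, h2⟩
    exact ⟨j, fun h => h1 h.symm, fun i hi => (h2 i hi).symm⟩⟩
  loopless := ⟨by
    rintro x ⟨j, h1, _⟩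
    exact h1 rfl⟩

/-- A 2-distance mutual-visibility set: any two distinct members are adjacent or have a
common neighbour outside the set. -/
def IsMV2 {V : Type*} (G : SimpleGraph V) (M : Set V) : Prop :=
  ∀ u ∈ M, ∀ v ∈ M, u ≠ v → G.Adj u v ∨ ∃ w, w ∉ M ∧ G.Adj u w ∧ G.Adj w v

/-- The least number of parts in a partition of the vertex set into 2-distance
mutual-visibility sets. -/
noncomputable def chiMV2 {V : Type*} (G : SimpleGraph V) : ℕ :=
  sInf {k | ∃ f : V → Fin k, ∀ i, IsMV2 G {v | f v = i}}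

/-- The domination number. -/
noncomputable def domNum {V : Type*} (G : SimpleGraph V) : ℕ :=
  sInf {k | ∃ D : Finset V, D.card = k ∧ ∀ v, v ∉ D → ∃ u ∈ D, G.Adj v u}

/-- The unit vector. -/
def e {n : ℕ} (j : Fin n) : Vtx n := Pi.single j 1

lemma z2 (a : ZMod 2) : a + a = 0 := CharTwo.add_self_eq_zero a

lemma e_self {n : ℕ} (j : Fin n) : e j j = 1 := by simp [e]

lemma e_ne {n : ℕ} {i j : Fin n} (h : i ≠ j) : e j i = 0 := by simp [e, h]

lemma ee {n : ℕ} (x : Vtx n) : x + x = 0 := by
  funext i; exact z2 (x i)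

lemma add_add_cancel' {n : ℕ} (x y : Vtx n) : x + y + y = x := by
  rw [add_assoc, ee, add_zero]

lemma ne_add_one (a b : ZMod 2) (h : a ≠ b) : b = a + 1 := by
  revert a b; decide

lemma adj_iff {n : ℕ} {x y : Vtx n} : (cube n).Adj x y ↔ ∃ j, y = x + e j := by
  constructor
  · rintro ⟨j, h1, h2⟩
    refine ⟨j, ?_⟩
    funext i
    by_cases hi : i = j
    · subst hi
      rw [Pi.add_apply, e_self]
      exact ne_add_one _ _ h1
    · rw [Pi.add_apply, e_ne hi, add_zero]
      exact (h2 i hi).symm
  · rintro ⟨j, rfl⟩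
    refine ⟨j, ?_, ?_⟩
    · rw [Pi.add_apply, e_self]
      generalize x j = a
      revert a; decide
    · intro i hi
      rw [Pi.add_apply, e_ne hi, add_zero]

/-- The closed neighbourhood in the cube. -/
def ball {n : ℕ} (x : Vtx n) : Finset (Vtx n) :=
  insert x (univ.image fun j => x + e j)

lemma mem_ball {n : ℕ} {x y : Vtx n} : y ∈ ball x ↔ y = x ∨ ∃ j, y = x + e j := by
  simp [ball, eq_comm]

lemma e_ne_zero {n : ℕ} (j : Fin n) : e j ≠ (0 : Vtx n) := by
  intro h
  have := congrFun h j
  rw [e_self] at this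
  simp at this

lemma e_inj {n : ℕ} {i j : Fin n} (h : (e i : Vtx n) = e j) : i = j := by
  by_contra hne
  have := congrFun h i
  rw [e_self, e_ne hne] at this
  simp at this

lemma card_ball {n : ℕ} (x : Vtx n) : (ball x).card = n + 1 := by
  unfold ball
  rw [card_insert_of_notMem, card_image_of_injective]
  · simp
  · intro i j h
    exact e_inj (add_left_cancel h)
  · intro h
    simp only [mem_image, mem_univ, true_and] at h
    obtain ⟨j, hj⟩ := h
    exact e_ne_zero j (by simpa using hj)

lemma ball_symm {n : ℕ} {x y : Vtx n} (h : y ∈ ball x) : x ∈ ball y := by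
  rw [mem_ball] at h ⊢
  rcases h with rfl | ⟨j, rfl⟩
  · exact Or.inl rfl
  · exact Or.inr ⟨j, (add_add_cancel' x (e j)).symm⟩

lemma even_inter {n : ℕ} {c x : Vtx n} (h : x ≠ c) :
    Even ((ball x).filter fun y => y ∈ ball c).card := by
  rw [← ZMod.natCast_eq_zero_iff_even]
  have h1 : (((ball x).filter fun y => y ∈ ball c).card : ZMod 2)
      = ∑ y ∈ (ball x).filter (fun y => y ∈ ball c), (1 : ZMod 2) := by simp
  rw [h1]
  have key : ∀ y : Vtx n, y ∈ ball x → y ∈ ball c → (y + x + c) ∈ ball x ∧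
      (y + x + c) ∈ ball c := by
    intro y hy hc
    rw [mem_ball] at hy hc
    constructor
    · rw [mem_ball]
      rcases hc with rfl | ⟨j, rfl⟩
      · left
        rw [add_comm y x, add_add_cancel']
      · right
        refine ⟨j, ?_⟩
        have : c + e j + x + c = x + e j + (c + c) := by abel
        rw [this, ee, add_zero]
    · rw [mem_ball]
      rcases hy with rfl | ⟨j, rfl⟩
      · left
        rw [ee, zero_add]
      · right
        refine ⟨j, ?_⟩
        have : x + e j + x + c = c + e j + (x + x) := by abel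
        rw [this, ee, add_zero]
  refine Finset.sum_involution (fun y _ => y + x + c) ?_ ?_ ?_ ?_
  · intro a ha
    exact z2 1
  · intro a ha _ h2
    apply h
    have h3 : a + (x + c) = a + 0 := by rw [add_zero, ← add_assoc]; exact h2
    have h4 : x + c = 0 := add_left_cancel h3
    calc x = x + c + c := (add_add_cancel' x c).symm
      _ = c := by rw [h4, zero_add]
  · intro a ha
    rw [mem_filter] at ha ⊢
    exact key a ha.1 ha.2
  · intro a ha
    have : a + x + c + x + c = a + (x + x) + (c + c) := by abel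
    rw [this, ee, ee, add_zero, add_zero]

lemma parity_step (N : ℕ) (n : ℕ) (hn : Even n) (h1 : n + 1 ≤ N) (h2 : Even N) :
    n + 2 ≤ N := by
  rcases hn with ⟨a, ha⟩
  rcases h2 with ⟨b, hb⟩
  omega

lemma core {n : ℕ} (hn : Even n) (hn8 : 8 ≤ n) (S : Finset (Finset (Vtx n)))
    (hcov : ∀ y, ∃ F ∈ S, y ∈ F)
    (hgood : ∀ F ∈ S, (∃ c, F = ball c) ∨ F.card ≤ 4) : 2 ^ n ≤ n * S.card := by
  classical
  have hP : ∀ F : Finset (Vtx n), ∃ P : Finset (Vtx n), F ∈ S →
      ((∃ c, F = ball c ∧ P = {c}) ∨ (F.card ≤ 4 ∧ P = F.biUnion ball)) := by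
    intro F
    by_cases hF : F ∈ S
    · rcases hgood F hF with ⟨c, hc⟩ | h
      · exact ⟨{c}, fun _ => Or.inl ⟨c, hc, rfl⟩⟩
      · exact ⟨F.biUnion ball, fun _ => Or.inr ⟨h, rfl⟩⟩
    · exact ⟨∅, fun h => absurd h hF⟩
  choose P hP using hP
  set X : Finset (Vtx n) := univ \ S.biUnion P with hX
  set r : Vtx n → ℕ := fun y => ∑ F ∈ S, if y ∈ F then 1 else 0 with hr
  have hr1 : ∀ y, 1 ≤ r y := by
    intro y
    obtain ⟨F, hF, hy⟩ := hcov y
    calc 1 = (if y ∈ F then 1 else 0) := by rw [if_pos hy]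
      _ ≤ r y := Finset.single_le_sum (f := fun F => if y ∈ F then 1 else 0)
        (fun _ _ => Nat.zero_le _) hF
  -- the excess around a point of X is positive
  have hex : ∀ x ∈ X, 1 ≤ ∑ y ∈ ball x, (r y - 1) := by
    intro x hx
    have hsum : ∑ y ∈ ball x, r y = ∑ F ∈ S, ((ball x).filter fun y => y ∈ F).card := by
      simp only [hr]
      rw [Finset.sum_comm]
      refine Finset.sum_congr rfl fun F _ => ?_
      rw [Finset.card_filter]
    have heven : Even (∑ y ∈ ball x, r y) := by
      rw [hsum]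
      refine Finset.even_sum _ fun F hF => ?_
      have hxP : x ∉ P F := by
        intro h
        rw [hX, mem_sdiff] at hx
        exact hx.2 (mem_biUnion.2 ⟨F, hF, h⟩)
      rcases hP F hF with ⟨c, hc, hPc⟩ | ⟨_, hPc⟩
      · rw [hPc, mem_singleton] at hxP
        rw [hc]
        exact even_inter hxP
      · have : (ball x).filter (fun y => y ∈ F) = ∅ := by
          rw [filter_eq_empty_iff]
          intro y hy hyF
          apply hxP
          rw [hPc]
          exact mem_biUnion.2 ⟨y, hyF, ball_symm hy⟩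
        rw [this]
        simp
    have hge : n + 1 ≤ ∑ y ∈ ball x, r y := by
      calc n + 1 = ∑ y ∈ ball x, 1 := by simp [card_ball]
        _ ≤ _ := Finset.sum_le_sum fun y _ => hr1 y
    have h2 := parity_step _ n hn hge heven
    have h3 : ∑ y ∈ ball x, r y = ∑ y ∈ ball x, (r y - 1) + (n + 1) := by
      have : ∑ y ∈ ball x, r y = ∑ y ∈ ball x, ((r y - 1) + 1) :=
        Finset.sum_congr rfl fun y _ => by have := hr1 y; omega
      rw [this, Finset.sum_add_distrib]
      simp [card_ball]
    omega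
  have hdc : ∑ x ∈ X, ∑ y ∈ ball x, (r y - 1)
      = ∑ y : Vtx n, (r y - 1) * (X.filter fun x => y ∈ ball x).card := by
    have h1 : ∀ x : Vtx n, ∑ y ∈ ball x, (r y - 1)
        = ∑ y : Vtx n, if y ∈ ball x then (r y - 1) else 0 := by
      intro x
      rw [← Finset.sum_filter]
      congr 1
      ext y
      simp
    simp_rw [h1]
    rw [Finset.sum_comm]
    refine Finset.sum_congr rfl fun y _ => ?_
    rw [← Finset.sum_filter, Finset.sum_const, smul_eq_mul, mul_comm]
  have hterm : ∀ y : Vtx n, (r y - 1) * (X.filter fun x => y ∈ ball x).card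
      ≤ (r y - 1) * (n - 1) := by
    intro y
    by_cases h0 : r y - 1 = 0
    · rw [h0]; simp
    apply Nat.mul_le_mul_left
    have hr2 : 2 ≤ r y := by omega
    have hcard : r y = (S.filter fun F => y ∈ F).card := by
      simp only [hr]
      rw [Finset.card_filter]
    rw [hcard] at hr2
    have h1lt : 1 < (S.filter fun F => y ∈ F).card := hr2
    obtain ⟨F, hF, G, hG, hFG⟩ := Finset.one_lt_card.1 h1lt
    rw [mem_filter] at hF hG
    have hsmall : ∀ H ∈ S, y ∈ H → H.card ≤ 4 → P H = H.biUnion ball →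
        (X.filter fun x => y ∈ ball x).card ≤ n - 1 := by
      intro H hH hyH _ hPH
      have : X.filter (fun x => y ∈ ball x) = ∅ := by
        rw [filter_eq_empty_iff]
        intro x hx hyx
        rw [hX, mem_sdiff] at hx
        apply hx.2
        refine mem_biUnion.2 ⟨H, hH, ?_⟩
        rw [hPH]
        exact mem_biUnion.2 ⟨y, hyH, ball_symm hyx⟩
      rw [this]
      simp
    rcases hP F hF.1 with ⟨c, hc, hPc⟩ | ⟨h4, hPc⟩
    · rcases hP G hG.1 with ⟨d, hd, hPd⟩ | ⟨h4', hPd⟩
      · have hcd : c ≠ d := by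
          rintro rfl
          exact hFG (hc.trans hd.symm)
        have hsub : X.filter (fun x => y ∈ ball x) ⊆ ((ball y).erase c).erase d := by
          intro x hx
          rw [mem_filter, hX, mem_sdiff] at hx
          rw [mem_erase, mem_erase]
          refine ⟨?_, ?_, ball_symm hx.2⟩
          · rintro rfl
            exact hx.1.2 (mem_biUnion.2 ⟨G, hG.1, by rw [hPd]; simp⟩)
          · rintro rfl
            exact hx.1.2 (mem_biUnion.2 ⟨F, hF.1, by rw [hPc]; simp⟩)
        have hcy : c ∈ ball y := ball_symm (hc ▸ hF.2)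
        have hdy : d ∈ ball y := ball_symm (hd ▸ hG.2)
        have h1 := card_le_card hsub
        rw [card_erase_of_mem (mem_erase.2 ⟨hcd.symm, hdy⟩), card_erase_of_mem hcy,
          card_ball] at h1
        omega
      · exact hsmall G hG.1 hG.2 h4' hPd
    · exact hsmall F hF.1 hF.2 h4 hPc
  have hE : X.card ≤ (n - 1) * ∑ y : Vtx n, (r y - 1) := by
    calc X.card = ∑ x ∈ X, 1 := by simp
      _ ≤ ∑ x ∈ X, ∑ y ∈ ball x, (r y - 1) := Finset.sum_le_sum hex
      _ = _ := hdc
      _ ≤ ∑ y : Vtx n, (r y - 1) * (n - 1) := Finset.sum_le_sum fun y _ => hterm y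
      _ = _ := by rw [← Finset.sum_mul, mul_comm]
  have hV : Fintype.card (Vtx n) = 2 ^ n := by
    simp [Vtx, ZMod.card]
  have hSF : ∑ F ∈ S, F.card = ∑ y : Vtx n, (r y - 1) + 2 ^ n := by
    have h1 : ∑ y : Vtx n, r y = ∑ F ∈ S, F.card := by
      simp only [hr]
      rw [Finset.sum_comm]
      refine Finset.sum_congr rfl fun F _ => ?_
      simp
    rw [← h1]
    have : ∑ y : Vtx n, r y = ∑ y : Vtx n, ((r y - 1) + 1) :=
      Finset.sum_congr rfl fun y _ => by have := hr1 y; omega
    rw [this, Finset.sum_add_distrib]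
    simp
  have hSP : 2 ^ n ≤ X.card + ∑ F ∈ S, (P F).card := by
    have h1 : (univ : Finset (Vtx n)).card ≤ X.card + (S.biUnion P).card := by
      rw [hX]
      have := Finset.card_le_card_sdiff_add_card (s := (univ : Finset (Vtx n)))
        (t := S.biUnion P)
      exact this
    have h2 := Finset.card_biUnion_le (s := S) (t := P)
    rw [card_univ, hV] at h1
    omega
  have hW : ∑ F ∈ S, ((n - 1) * F.card + (P F).card) ≤ n * n * S.card := by
    calc _ ≤ ∑ F ∈ S, n * n := by
          refine Finset.sum_le_sum fun F hF => ?_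
          obtain ⟨k, rfl⟩ : ∃ k, n = k + 8 := ⟨n - 8, by omega⟩
          rcases hP F hF with ⟨c, hc, hPc⟩ | ⟨h4, hPc⟩
          · rw [hPc, hc, card_ball, card_singleton]
            have : k + 8 - 1 = k + 7 := by omega
            rw [this]
            nlinarith
          · have h1 : (P F).card ≤ 4 * (k + 8 + 1) := by
              rw [hPc]
              calc _ ≤ ∑ y ∈ F, (ball y).card := Finset.card_biUnion_le
                _ = F.card * (k + 8 + 1) := by simp [card_ball]
                _ ≤ _ := Nat.mul_le_mul_right _ h4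
            have : k + 8 - 1 = k + 7 := by omega
            rw [this]
            have h2 : (k + 7) * F.card ≤ (k + 7) * 4 := Nat.mul_le_mul_left _ h4
            nlinarith
      _ = n * n * S.card := by simp [mul_comm]
  rw [Finset.sum_add_distrib, ← Finset.mul_sum, hSF] at hW
  set E := ∑ y : Vtx n, (r y - 1)
  set Q := ∑ F ∈ S, (P F).card
  have hfin : n * 2 ^ n ≤ n * (n * S.card) := by
    have h1 : (n - 1) * (E + 2 ^ n) = (n - 1) * E + (n - 1) * 2 ^ n := by ring
    have h2 : n * 2 ^ n = (n - 1) * 2 ^ n + 2 ^ n := by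
      obtain ⟨k, rfl⟩ : ∃ k, n = k + 1 := ⟨n - 1, by omega⟩
      simp only [Nat.add_sub_cancel]
      ring
    rw [← mul_assoc]
    omega
  exact Nat.le_of_mul_le_mul_left hfin (by omega)

lemma dist2 {n : ℕ} {M : Set (Vtx n)} (h : IsMV2 (cube n) M) {x y : Vtx n} (hx : x ∈ M)
    (hy : y ∈ M) {p q r : Fin n} (hpq : p ≠ q) (hpr : p ≠ r) (hqr : q ≠ r)
    (h1 : x p ≠ y p) (h2 : x q ≠ y q) (h3 : x r ≠ y r) : False := by
  have hxy : x ≠ y := fun h => h1 (by rw [h])
  rcases h x hx y hy hxy with ⟨j, _, hj⟩ | ⟨w, _, ⟨i, _, hi⟩, ⟨j, _, hj⟩⟩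
  · by_cases hp : p = j
    · exact h2 (hj q (by rw [← hp]; exact hpq.symm))
    · exact h1 (hj p hp)
  · have key : ∀ t, t ≠ i → t ≠ j → x t = y t := fun t hti htj => (hi t hti).trans (hj t htj)
    by_cases hp : p = i ∨ p = j
    · by_cases hq : q = i ∨ q = j
      · by_cases hr : r = i ∨ r = j
        · rcases hp with hp | hp <;> rcases hq with hq | hq <;> rcases hr with hr | hr <;>
            first
              | exact hpq (hp.trans hq.symm)
              | exact hpr (hp.trans hr.symm)
              | exact hqr (hq.trans hr.symm)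
        · rw [not_or] at hr
          exact h3 (key r hr.1 hr.2)
      · rw [not_or] at hq
        exact h2 (key q hq.1 hq.2)
    · rw [not_or] at hp
      exact h1 (key p hp.1 hp.2)

lemma form {n : ℕ} {M : Set (Vtx n)} (h : IsMV2 (cube n) M) {v y : Vtx n} (hv : v ∈ M)
    (hy : y ∈ M) : y = v ∨ (∃ i, y = v + e i) ∨
      ∃ i j, i ≠ j ∧ y = v + e i + e j ∧ v + e i ∉ M := by
  by_cases hvy : v = y
  · exact Or.inl hvy.symm
  right
  rcases h v hv y hy hvy with h1 | ⟨w, hw, h1, h2⟩
  · exact Or.inl (adj_iff.1 h1)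
  · right
    obtain ⟨i, rfl⟩ := adj_iff.1 h1
    obtain ⟨j, rfl⟩ := adj_iff.1 h2
    refine ⟨i, j, ?_, rfl, hw⟩
    rintro rfl
    exact hvy (add_add_cancel' v (e i)).symm

lemma add_one_ne (a : ZMod 2) : a + 1 ≠ a := by revert a; decide

lemma ne_add_one' (a : ZMod 2) : a ≠ a + 1 := by revert a; decide

lemma classify {n : ℕ} {M : Set (Vtx n)} (h : IsMV2 (cube n) M) :
    (∃ c, ∀ y ∈ M, y ∈ ball c) ∨ ∃ F : Finset (Vtx n), F.card ≤ 4 ∧ ∀ y ∈ M, y ∈ F := by
  classical
  by_cases hne : ∃ v, v ∈ M
  swap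
  · exact Or.inr ⟨∅, by simp, fun y hy => absurd ⟨y, hy⟩ hne⟩
  obtain ⟨v, hv⟩ := hne
  by_cases hA : ∀ y ∈ M, y ∈ ball v
  · exact Or.inl ⟨v, hA⟩
  push Not at hA
  obtain ⟨y1, hy1, hy1b⟩ := hA
  rw [mem_ball, not_or] at hy1b
  obtain ⟨b, a, hba, hy1e, hb⟩ : ∃ i j, i ≠ j ∧ y1 = v + e i + e j ∧ v + e i ∉ M := by
    rcases form h hv hy1 with h1 | h1 | h1
    · exact absurd h1 hy1b.1
    · exact absurd h1 hy1b.2
    · exact h1
  by_cases hB : ∀ y ∈ M, y ∈ ball (v + e a)
  · exact Or.inl ⟨_, hB⟩
  push Not at hB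
  obtain ⟨z, hz, hzb⟩ := hB
  rw [mem_ball, not_or, not_exists] at hzb
  have y1a : y1 a = v a + 1 := by
    rw [hy1e]; simp [e_self, e_ne hba.symm]
  have y1b : y1 b = v b + 1 := by
    rw [hy1e]; simp [e_self, e_ne hba]
  have y1o : ∀ t, t ≠ a → t ≠ b → y1 t = v t := by
    intro t h1 h2
    rw [hy1e]; simp [e_ne h1, e_ne h2]
  -- no member is at distance one from v in a direction other than a
  have hone : ∀ i, i ≠ a → v + e i ∉ M := by
    intro i hia hi
    by_cases hib : i = b
    · exact hb (hib ▸ hi)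
    · refine dist2 h hi hy1 hia hib hba.symm ?_ ?_ ?_
      · rw [y1o i hia hib, Pi.add_apply, e_self]; exact add_one_ne _
      · rw [y1a, Pi.add_apply, e_ne (Ne.symm hia), add_zero]; exact ne_add_one' _
      · rw [y1b, Pi.add_apply, e_ne (Ne.symm hib), add_zero]; exact ne_add_one' _
  obtain ⟨c, hca, hcb, hze⟩ : ∃ c, c ≠ a ∧ c ≠ b ∧ z = v + e b + e c := by
    rcases form h hv hz with h1 | ⟨i, h1⟩ | ⟨i, j, hij, h1, _⟩
    · exfalso
      apply hzb.2 a
      rw [h1, add_add_cancel']
    · exfalso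
      by_cases hia : i = a
      · exact hzb.1 (by rw [h1, hia])
      · exact hone i hia (h1 ▸ hz)
    · have hia : i ≠ a := fun h2 => hzb.2 j (by rw [h1, h2])
      have hja : j ≠ a := fun h2 => hzb.2 i (by rw [h1, h2]; abel)
      by_cases hib : i = b
      · exact ⟨j, hja, fun h2 => hij (hib.trans h2.symm), by rw [h1, hib]⟩
      by_cases hjb : j = b
      · exact ⟨i, hia, hib, by rw [h1, hjb]; abel⟩
      exfalso
      refine dist2 h hz hy1 hia hib hba.symm ?_ ?_ ?_
      · rw [y1o i hia hib, h1]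
        simp only [Pi.add_apply, e_self, e_ne hij, add_zero]
        exact add_one_ne _
      · rw [y1a, h1]
        simp only [Pi.add_apply, e_ne (Ne.symm hia), e_ne (Ne.symm hja), add_zero]
        exact ne_add_one' _
      · rw [y1b, h1]
        simp only [Pi.add_apply, e_ne (Ne.symm hib), e_ne (Ne.symm hjb), add_zero]
        exact ne_add_one' _
  have zb : z b = v b + 1 := by
    rw [hze]; simp [e_self, e_ne hcb.symm]
  have zc : z c = v c + 1 := by
    rw [hze]; simp [e_self, e_ne hcb]
  have zo : ∀ t, t ≠ b → t ≠ c → z t = v t := by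
    intro t h1 h2
    rw [hze]; simp [e_ne h1, e_ne h2]
  have honea : v + e a ∉ M := by
    intro ha
    refine dist2 h ha hz hba.symm hca.symm hcb.symm ?_ ?_ ?_
    · rw [zo a hba.symm hca.symm, Pi.add_apply, e_self]; exact add_one_ne _
    · rw [zb, Pi.add_apply, e_ne hba, add_zero]; exact ne_add_one' _
    · rw [zc, Pi.add_apply, e_ne hca, add_zero]; exact ne_add_one' _
  -- members at distance two from v
  have htwo : ∀ y ∈ M, y = v ∨ ∃ i j, i ≠ j ∧ y = v + e i + e j := by
    intro y hy
    rcases form h hv hy with h1 | ⟨i, h1⟩ | ⟨i, j, hij, h1, _⟩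
    · exact Or.inl h1
    · exfalso
      by_cases hia : i = a
      · exact honea (hia ▸ h1 ▸ hy)
      · exact hone i hia (h1 ▸ hy)
    · exact Or.inr ⟨i, j, hij, h1⟩
  -- any two such members share a direction
  have hshare : ∀ i j p q, i ≠ j → p ≠ q → v + e i + e j ∈ M → v + e p + e q ∈ M →
      i = p ∨ i = q ∨ j = p ∨ j = q := by
    intro i j p q hij hpq h1 h2
    by_contra hcon
    push Not at hcon
    obtain ⟨k1, k2, k3, k4⟩ := hcon
    refine dist2 h h1 h2 hij k1 k3 ?_ ?_ ?_
    · simp only [Pi.add_apply, e_self, e_ne hij, e_ne k1, e_ne k2, add_zero]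
      exact add_one_ne _
    · simp only [Pi.add_apply, e_self, e_ne hij.symm, e_ne k3, e_ne k4, add_zero]
      exact add_one_ne _
    · simp only [Pi.add_apply, e_self, e_ne hpq, e_ne k1.symm, e_ne k3.symm, add_zero]
      exact ne_add_one' _
  have hab : v + e a + e b ∈ M := by
    have : v + e a + e b = y1 := by rw [hy1e]; abel
    rw [this]; exact hy1
  have hbc : v + e b + e c ∈ M := hze ▸ hz
  by_cases hac : v + e a + e c ∈ M
  · right
    refine ⟨{v, v + e a + e b, v + e b + e c, v + e a + e c}, Finset.card_le_four, ?_⟩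
    intro y hy
    rcases htwo y hy with h1 | ⟨i, j, hij, h1⟩
    · simp [h1]
    · have hyM : v + e i + e j ∈ M := h1 ▸ hy
      have s1 := hshare i j a b hij hba.symm hyM hab
      have s2 := hshare i j b c hij hcb.symm hyM hbc
      have s3 := hshare i j a c hij hca.symm hyM hac
      have hcases : (i = a ∧ j = b) ∨ (i = b ∧ j = a) ∨ (i = b ∧ j = c) ∨ (i = c ∧ j = b) ∨
          (i = a ∧ j = c) ∨ (i = c ∧ j = a) := by
        by_cases e1 : i = a
        · by_cases e2 : j = b
          · exact Or.inl ⟨e1, e2⟩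
          · right; right; right; right; left
            refine ⟨e1, ?_⟩
            rcases s2 with h | h | h | h
            · exact absurd (e1.symm.trans h) hba.symm
            · exact absurd (e1.symm.trans h) hca.symm
            · exact absurd h e2
            · exact h
        · by_cases e2 : i = b
          · by_cases e3 : j = a
            · exact Or.inr (Or.inl ⟨e2, e3⟩)
            · right; right; left
              refine ⟨e2, ?_⟩
              rcases s3 with h | h | h | h
              · exact absurd h e1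
              · exact absurd (e2.symm.trans h) hcb.symm
              · exact absurd h e3
              · exact h
          · by_cases e3 : i = c
            · rcases s1 with h | h | h | h
              · exact absurd h e1
              · exact absurd h e2
              · right; right; right; right; right
                exact ⟨e3, h⟩
              · right; right; right; left
                exact ⟨e3, h⟩
            · exfalso
              rcases s1 with h | h | h | h
              · exact e1 h
              · exact e2 h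
              · rcases s2 with g | g | g | g
                · exact e2 g
                · exact e3 g
                · exact hba (g.symm.trans h)
                · exact hca (g.symm.trans h)
              · rcases s3 with g | g | g | g
                · exact e1 g
                · exact e3 g
                · exact hba (h.symm.trans g)
                · exact hcb (g.symm.trans h)
      simp only [mem_insert, mem_singleton]
      rw [h1]
      rcases hcases with ⟨rfl, rfl⟩ | ⟨rfl, rfl⟩ | ⟨rfl, rfl⟩ | ⟨rfl, rfl⟩ | ⟨rfl, rfl⟩ |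
        ⟨rfl, rfl⟩
      · right; left; rfl
      · right; left; abel
      · right; right; left; rfl
      · right; right; left; abel
      · right; right; right; rfl
      · right; right; right; abel
  · left
    refine ⟨v + e b, ?_⟩
    intro y hy
    rw [mem_ball]
    rcases htwo y hy with h1 | ⟨i, j, hij, h1⟩
    · right
      exact ⟨b, by rw [add_add_cancel', h1]⟩
    · right
      have hyM : v + e i + e j ∈ M := h1 ▸ hy
      by_cases e1 : i = b
      · exact ⟨j, by rw [h1, e1]⟩
      by_cases e2 : j = b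
      · exact ⟨i, by rw [h1, e2]; abel⟩
      exfalso
      have s1 := hshare i j a b hij hba.symm hyM hab
      have s2 := hshare i j b c hij hcb.symm hyM hbc
      apply hac
      rcases s1 with h | h | h | h
      · rcases s2 with g | g | g | g
        · exact absurd g e1
        · exact absurd (h.symm.trans g) hca.symm
        · exact absurd g e2
        · rw [h, g] at hyM; exact hyM
      · exact absurd h e1
      · rcases s2 with g | g | g | g
        · exact absurd g e1
        · rw [h, g] at hyM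
          have : v + e a + e c = v + e c + e a := by abel
          rw [this]; exact hyM
        · exact absurd g e2
        · exact absurd (h.symm.trans g) hca.symm
      · exact absurd h e2

lemma two_step_notMem {n : ℕ} (d : Vtx n) {i j : Fin n} (hij : i ≠ j) :
    d + e i + e j ∉ ball d := by
  rw [mem_ball, not_or, not_exists]
  constructor
  · intro h
    have := congrFun h i
    simp only [Pi.add_apply, e_self, e_ne hij, add_zero] at this
    exact add_one_ne _ this
  · intro k h
    by_cases hk : k = i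
    · have := congrFun h j
      rw [hk] at this
      simp only [Pi.add_apply, e_self, e_ne hij.symm, add_zero] at this
      exact add_one_ne _ this
    · have := congrFun h i
      simp only [Pi.add_apply, e_self, e_ne hij, e_ne (Ne.symm hk), add_zero] at this
      exact add_one_ne _ this

lemma isMV2_of_ball {n : ℕ} {M : Set (Vtx n)} {d : Vtx n} (h : ∀ y ∈ M, y ∈ ball d) :
    IsMV2 (cube n) M := by
  intro u hu v hv huv
  rcases mem_ball.1 (h u hu) with hu1 | ⟨i, hu1⟩
  · rcases mem_ball.1 (h v hv) with hv1 | ⟨j, hv1⟩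
    · exact absurd (hu1.trans hv1.symm) huv
    · left
      exact adj_iff.2 ⟨j, by rw [hu1, hv1]⟩
  · rcases mem_ball.1 (h v hv) with hv1 | ⟨j, hv1⟩
    · left
      exact adj_iff.2 ⟨i, by rw [hu1, hv1, add_add_cancel']⟩
    · right
      have hij : i ≠ j := by
        rintro rfl
        exact huv (hu1.trans hv1.symm)
      refine ⟨d + e i + e j, fun hw => two_step_notMem d hij (h _ hw), ?_, ?_⟩
      · exact adj_iff.2 ⟨j, by rw [hu1]⟩
      · refine adj_iff.2 ⟨i, ?_⟩
        rw [hv1]
        have : d + e i + e j + e i = d + e j + (e i + e i) := by abel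
        rw [this, ee, add_zero]

/-- The colourings counted by `chiMV2` of the cube. -/
def Good (n k : ℕ) : Prop := ∃ f : Vtx n → Fin k, ∀ i, IsMV2 (cube n) {v | f v = i}

lemma good_domNum (n : ℕ) : Good n (domNum (cube n)) := by
  classical
  have hne : {k | ∃ D : Finset (Vtx n), D.card = k ∧
      ∀ v, v ∉ D → ∃ u ∈ D, (cube n).Adj v u}.Nonempty :=
    ⟨_, univ, rfl, fun v hv => absurd (mem_univ v) hv⟩
  obtain ⟨D, hD, hdom⟩ := Nat.sInf_mem hne
  have hd : ∀ v, ∃ u : D, v ∈ ball (u : Vtx n) := by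
    intro v
    by_cases hv : v ∈ D
    · exact ⟨⟨v, hv⟩, mem_ball.2 (Or.inl rfl)⟩
    · obtain ⟨u, hu, hadj⟩ := hdom v hv
      exact ⟨⟨u, hu⟩, ball_symm (mem_ball.2 (Or.inr (adj_iff.1 hadj)))⟩
  choose g hg using hd
  let eq := D.equivFinOfCardEq hD
  refine ⟨fun v => eq (g v), fun i => ?_⟩
  refine isMV2_of_ball (d := ((eq.symm i : D) : Vtx n)) ?_
  intro y hy
  have h1 : eq (g y) = i := hy
  rw [← h1, Equiv.symm_apply_apply]
  exact hg y

lemma domNum_le {m : ℕ} : domNum (cube (2 ^ m)) ≤ 2 ^ (2 ^ m - m) := by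
  classical
  have hcard : Fintype.card (Fin (2 ^ m)) = Fintype.card (Fin m → ZMod 2) := by
    simp [ZMod.card]
  let h : Fin (2 ^ m) ≃ (Fin m → ZMod 2) := Fintype.equivOfCardEq hcard
  let syn : Vtx (2 ^ m) → (Fin m → ZMod 2) := fun x => ∑ i, x i • h i
  have hsyn : ∀ x j, syn (x + e j) = syn x + h j := by
    intro x j
    simp only [syn, Pi.add_apply, add_smul, Finset.sum_add_distrib]
    congr 1
    rw [Finset.sum_eq_single j]
    · rw [e_self, one_smul]
    · intro b _ hb
      rw [e_ne hb, zero_smul]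
    · intro hj
      exact absurd (mem_univ j) hj
  have hm : m ≤ 2 ^ m := Nat.lt_two_pow_self.le
  have hle : (univ : Finset (Vtx (2 ^ m))).card
      ≤ (univ : Finset (Fin m → ZMod 2)).card * 2 ^ (2 ^ m - m) := by
    rw [card_univ, card_univ]
    have h1 : Fintype.card (Vtx (2 ^ m)) = 2 ^ (2 ^ m) := by simp [Vtx, ZMod.card]
    have h2 : Fintype.card (Fin m → ZMod 2) = 2 ^ m := by simp [ZMod.card]
    rw [h1, h2, ← pow_add, Nat.add_sub_cancel' hm]
  obtain ⟨s, _, hs⟩ := Finset.exists_card_fiber_le_of_card_le_mul (f := syn)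
    (s := (univ : Finset (Vtx (2 ^ m)))) (t := (univ : Finset (Fin m → ZMod 2)))
    ⟨0, mem_univ _⟩ hle
  refine le_trans (Nat.sInf_le ⟨univ.filter (fun x => syn x = s), rfl, ?_⟩) hs
  intro v _
  refine ⟨v + e (h.symm (s + syn v)), ?_, adj_iff.2 ⟨_, rfl⟩⟩
  rw [mem_filter]
  refine ⟨mem_univ _, ?_⟩
  rw [hsyn, Equiv.apply_symm_apply]
  have : syn v + (s + syn v) = s + (syn v + syn v) := by abel
  rw [this]
  have h2 : syn v + syn v = 0 := by funext i; exact z2 _
  rw [h2, add_zero]

lemma good_family {n k : ℕ} (hg : Good n k) :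
    ∃ S : Finset (Finset (Vtx n)), S.card ≤ k ∧ (∀ y, ∃ F ∈ S, y ∈ F) ∧
      ∀ F ∈ S, (∃ c, F = ball c) ∨ F.card ≤ 4 := by
  classical
  obtain ⟨f, hf⟩ := hg
  have hF : ∀ i, ∃ F : Finset (Vtx n), (∀ y, f y = i → y ∈ F) ∧
      ((∃ c, F = ball c) ∨ F.card ≤ 4) := by
    intro i
    rcases classify (hf i) with ⟨c, hc⟩ | ⟨F, hF, hc⟩
    · exact ⟨ball c, fun y hy => hc y hy, Or.inl ⟨c, rfl⟩⟩
    · exact ⟨F, fun y hy => hc y hy, Or.inr hF⟩
  choose F hF1 hF2 using hF
  refine ⟨univ.image F, ?_, ?_, ?_⟩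
  · exact le_trans card_image_le (by simp)
  · intro y
    exact ⟨F (f y), mem_image_of_mem _ (mem_univ _), hF1 _ y rfl⟩
  · intro G hG
    obtain ⟨i, _, rfl⟩ := mem_image.1 hG
    exact hF2 i

lemma lower_even {n k : ℕ} (hn : Even n) (hn8 : 8 ≤ n) (hg : Good n k) : 2 ^ n ≤ n * k := by
  obtain ⟨S, hS, hcov, hgood⟩ := good_family hg
  exact le_trans (core hn hn8 S hcov hgood) (Nat.mul_le_mul_left _ hS)

lemma lower_simple {n k : ℕ} (hn : 3 ≤ n) (hg : Good n k) : 2 ^ n ≤ (n + 1) * k := by
  classical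
  obtain ⟨S, hS, hcov, hgood⟩ := good_family hg
  have h1 : (univ : Finset (Vtx n)) ⊆ S.biUnion id := by
    intro y _
    obtain ⟨F, hF, hy⟩ := hcov y
    exact mem_biUnion.2 ⟨F, hF, hy⟩
  have h2 := card_le_card h1
  have hV : Fintype.card (Vtx n) = 2 ^ n := by simp [Vtx, ZMod.card]
  rw [card_univ, hV] at h2
  have h3 : (S.biUnion id).card ≤ S.card * (n + 1) := by
    refine card_biUnion_le_card_mul S id (n + 1) ?_
    intro F hF
    rcases hgood F hF with ⟨c, rfl⟩ | h
    · exact (card_ball c).le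
    · exact le_trans h (by omega)
  calc 2 ^ n ≤ S.card * (n + 1) := h2.trans h3
    _ ≤ k * (n + 1) := Nat.mul_le_mul_right _ hS
    _ = (n + 1) * k := mul_comm _ _

lemma lower_two {k : ℕ} (hg : Good 2 k) : 2 ≤ k := by
  obtain ⟨f, hf⟩ := hg
  by_contra hk
  have hk1 : k = 0 ∨ k = 1 := by omega
  rcases hk1 with rfl | rfl
  · exact (f 0).elim0
  · have hall : ∀ v, f v = 0 := fun v => Subsingleton.elim _ _
    have h01 : (0 : Vtx 2) ≠ 1 := by
      intro h
      have := congrFun h 0
      simp at this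
    rcases hf 0 0 (hall 0) 1 (hall 1) h01 with ⟨j, _, hj⟩ | ⟨w, hw, _⟩
    · have h2 : ∃ i : Fin 2, i ≠ j := by revert j; decide
      obtain ⟨i, hi⟩ := h2
      have := hj i hi
      simp at this
    · exact hw (hall w)

lemma lower {m k : ℕ} (hm : 1 ≤ m) (hg : Good (2 ^ m) k) : 2 ^ (2 ^ m - m) ≤ k := by
  by_cases h1 : m = 1
  · subst h1
    exact lower_two hg
  by_cases h2 : m = 2
  · subst h2
    have := lower_simple (n := 2 ^ 2) (by norm_num) hg
    norm_num at this ⊢
    omega
  have h3 : 3 ≤ m := by omega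
  have h8 : 8 ≤ 2 ^ m := by
    calc 8 = 2 ^ 3 := by norm_num
      _ ≤ 2 ^ m := Nat.pow_le_pow_right (by norm_num) h3
  have hev : Even (2 ^ m) := by
    rw [Nat.even_pow]
    exact ⟨even_two, by omega⟩
  have h4 := lower_even hev h8 hg
  have hm2 : m ≤ 2 ^ m := Nat.lt_two_pow_self.le
  have h5 : 2 ^ (2 ^ m) = 2 ^ m * 2 ^ (2 ^ m - m) := by
    rw [← pow_add, Nat.add_sub_cancel' hm2]
  rw [h5] at h4
  exact Nat.le_of_mul_le_mul_left h4 (by positivity)

/-- For every `m ≥ 1` and `n = 2 ^ m`, the 2-distance mutual-visibility chromatic number of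
the `n`-cube equals its domination number (both are `2 ^ (n - m)`). -/
theorem result (m : ℕ) (hm : 1 ≤ m) :
    chiMV2 (cube (2 ^ m)) = domNum (cube (2 ^ m)) ∧
      chiMV2 (cube (2 ^ m)) = 2 ^ (2 ^ m - m) := by
  have h1 : chiMV2 (cube (2 ^ m)) ≤ domNum (cube (2 ^ m)) :=
    Nat.sInf_le (good_domNum (2 ^ m))
  have h2 : 2 ^ (2 ^ m - m) ≤ chiMV2 (cube (2 ^ m)) := by
    have hne : {k | ∃ f : Vtx (2 ^ m) → Fin k,
        ∀ i, IsMV2 (cube (2 ^ m)) {v | f v = i}}.Nonempty := ⟨_, good_domNum (2 ^ m)⟩
    exact lower hm (Nat.sInf_mem hne)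
  have h3 := domNum_le (m := m)
  constructor <;> omega

end Pool.Agent.Results.MP_6c2603_co.PowerOfTwo
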