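import Mathlib
import Pool.Agent.Results.MP_6c2603_co.PowerOfTwo

namespace Pool.Agent.Results.MP_6c2603_co.EvenLowerBound

open Pool.Agent.Results.MP_6c2603_co.PowerOfTwo

/-- For every even `n ≥ 8`, any partition of the `n`-cube into 2-distance mutual-visibility
sets has at least `2 ^ n / n` parts. -/
theorem result (n : ℕ) (hn : Even n) (hn8 : 8 ≤ n) : 2 ^ n ≤ n * chiMV2 (cube n) :=
  lower_even hn hn8
    (Nat.sInf_mem (s := {k | ∃ f : Vtx n → Fin k, ∀ i, IsMV2 (cube n) {v | f v = i}})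
      ⟨_, good_domNum n⟩)

end Pool.Agent.Results.MP_6c2603_co.EvenLowerBound
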